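import Pool.Agent.Helper40.W4.Spec

/-!
# `B' = B ⊗ k'`: linear functionals
-/

set_option autoImplicit false

namespace Pool.Agent.Helper55.W4

open Polynomial Module Pool.Agent.Helper40.W4

section

variable {k k' : Type} [Field k] [Field k'] [Algebra k k'] {a c : k} {a' c' : k'}

/-- Apply a linear functional to all coefficients. -/
noncomputable def pl (l : k' →ₗ[k] k) (p : k'[X]) : k[X] :=
  ∑ i ∈ p.support, monomial i (l (p.coeff i))

lemma coeff_pl (l : k' →ₗ[k] k) (p : k'[X]) (m : ℕ) : (pl l p).coeff m = l (p.coeff m) := by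
  rw [pl, finsetSum_coeff]
  simp only [coeff_monomial]
  rw [Finset.sum_ite_eq']
  split_ifs with h
  · rfl
  · rw [notMem_support_iff.1 h, map_zero]

lemma pl_add (l : k' →ₗ[k] k) (p q : k'[X]) : pl l (p + q) = pl l p + pl l q := by
  ext m
  simp [coeff_pl]

lemma pl_zero (l : k' →ₗ[k] k) : pl l (0 : k'[X]) = 0 := by
  ext m
  simp [coeff_pl]

lemma pl_map_mul (l : k' →ₗ[k] k) (q : k[X]) (p : k'[X]) :
    pl l (q.map (algebraMap k k') * p) = q * pl l p := by
  ext m
  rw [coeff_pl, coeff_mul, coeff_mul, map_sum]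
  refine Finset.sum_congr rfl fun x _ => ?_
  rw [coeff_map, coeff_pl, ← Algebra.smul_def, map_smul, smul_eq_mul]

lemma pl_C_mul_map (l : k' →ₗ[k] k) (q : k[X]) (x : k') :
    pl l (C x * q.map (algebraMap k k')) = C (l x) * q := by
  ext m
  rw [coeff_pl, coeff_C_mul, coeff_C_mul, coeff_map, mul_comm x, ← Algebra.smul_def, map_smul,
    smul_eq_mul, mul_comm]

/-- Apply a linear functional to all coefficients. -/
noncomputable def Lam (l : k' →ₗ[k] k) (w : BB k' a' c') : BB k a c := ⟨pl l w.re, pl l w.im⟩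

lemma Lam_add (l : k' →ₗ[k] k) (w v : BB k' a' c') :
    (Lam l (w + v) : BB k a c) = Lam l w + Lam l v := by
  ext1 <;> simp [Lam, pl_add]

lemma Lam_zero (l : k' →ₗ[k] k) : (Lam l (0 : BB k' a' c') : BB k a c) = 0 := by
  ext1 <;> simp [Lam, pl_zero]

lemma Lam_bmap_mul (l : k' →ₗ[k] k) (ha : algebraMap k k' a = a') (hc : algebraMap k k' c = c')
    (w : BB k a c) (v : BB k' a' c') :
    Lam l (bmap (algebraMap k k') ha hc w * v) = w * Lam l v := by
  subst ha hc
  have e : ∀ (x : k[X]) (y : k'[X]), fpoly (algebraMap k k' a) (algebraMap k k' c) *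
      x.map (algebraMap k k') * y = (fpoly a c * x).map (algebraMap k k') * y := by
    intro x y
    rw [Polynomial.map_mul, fpoly_map]
  ext1
  · simp only [Lam, bmap, RingHom.coe_mk, MonoidHom.coe_mk, OneHom.coe_mk,
      QuadraticAlgebra.re_mul, e, pl_add, pl_map_mul]
  · simp only [Lam, bmap, RingHom.coe_mk, MonoidHom.coe_mk, OneHom.coe_mk,
      QuadraticAlgebra.im_mul, zero_mul, add_zero, pl_add, pl_map_mul]

/-- Constants. -/
noncomputable def kc (x : k') : BB k' a' c' := algebraMap k' (BB k' a' c') x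

lemma kc_re (x : k') : (kc x : BB k' a' c').re = C x := rfl

lemma kc_im (x : k') : (kc x : BB k' a' c').im = 0 := rfl

lemma kc_mul_re (x : k') (w : BB k' a' c') : (kc x * w).re = C x * w.re := by
  simp [kc_re, kc_im]

lemma kc_mul_im (x : k') (w : BB k' a' c') : (kc x * w).im = C x * w.im := by
  simp [kc_re, kc_im]

lemma Lam_kc_mul (l : k' →ₗ[k] k) (ha : algebraMap k k' a = a') (hc : algebraMap k k' c = c')
    (w : BB k a c) (x : k') :
    Lam l (kc x * bmap (algebraMap k k') ha hc w) = algebraMap k (BB k a c) (l x) * w := by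
  ext1
  · show pl l ((kc x * bmap (algebraMap k k') ha hc w).re) = _
    rw [kc_mul_re]
    simp only [bmap, RingHom.coe_mk, MonoidHom.coe_mk, OneHom.coe_mk, pl_C_mul_map]
    show _ = (kc (l x) * w).re
    rw [kc_mul_re]
  · show pl l ((kc x * bmap (algebraMap k k') ha hc w).im) = _
    rw [kc_mul_im]
    simp only [bmap, RingHom.coe_mk, MonoidHom.coe_mk, OneHom.coe_mk, pl_C_mul_map]
    show _ = (kc (l x) * w).im
    rw [kc_mul_im]

/-- Reconstruction of an element from the coordinates. -/
lemma recon {ι : Type*} (b : Basis ι k k') (ha : algebraMap k k' a = a')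
    (hc : algebraMap k k' c = c') (w : BB k' a' c') :
    ∃ s : Finset ι, (∀ j ∉ s, (Lam (b.coord j) w : BB k a c) = 0) ∧
      w = ∑ j ∈ s, kc (b j) * bmap (algebraMap k k') ha hc (Lam (b.coord j) w) := by
  classical
  let S : Finset k' := w.re.support.image w.re.coeff ∪ w.im.support.image w.im.coeff
  let s : Finset ι := S.biUnion fun x => (b.repr x).support
  have h1 : ∀ m, ∀ j ∉ s, b.coord j (w.re.coeff m) = 0 := by
    intro m j hj
    by_cases hm : m ∈ w.re.support
    · by_contra h
      refine hj (Finset.mem_biUnion.2 ⟨w.re.coeff m, ?_, ?_⟩)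
      · exact Finset.mem_union_left _ (Finset.mem_image_of_mem _ hm)
      · rw [Finsupp.mem_support_iff]; exact h
    · rw [notMem_support_iff.1 hm, map_zero]
  have h2 : ∀ m, ∀ j ∉ s, b.coord j (w.im.coeff m) = 0 := by
    intro m j hj
    by_cases hm : m ∈ w.im.support
    · by_contra h
      refine hj (Finset.mem_biUnion.2 ⟨w.im.coeff m, ?_, ?_⟩)
      · exact Finset.mem_union_right _ (Finset.mem_image_of_mem _ hm)
      · rw [Finsupp.mem_support_iff]; exact h
    · rw [notMem_support_iff.1 hm, map_zero]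
  have key : ∀ x : k', (∀ j ∉ s, b.coord j x = 0) →
      ∑ j ∈ s, b j * algebraMap k k' (b.coord j x) = x := by
    intro x hx
    conv_rhs => rw [← b.linearCombination_repr x]
    rw [Finsupp.linearCombination_apply, Finsupp.sum_of_support_subset _ (s := s)]
    · refine Finset.sum_congr rfl fun j _ => ?_
      rw [Algebra.smul_def, mul_comm]; rfl
    · intro j hj
      by_contra h
      exact (Finsupp.mem_support_iff.1 hj) (hx j h)
    · intro j _; rw [zero_smul]
  refine ⟨s, fun j hj => ?_, ?_⟩
  · ext1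
    · ext m; rw [Lam, coeff_pl, h1 m j hj]; simp
    · ext m; rw [Lam, coeff_pl, h2 m j hj]; simp
  · have hre : ∀ (t : Finset ι) (g : ι → BB k' a' c'), (∑ j ∈ t, g j).re = ∑ j ∈ t, (g j).re :=
      fun t g => map_sum (QuadraticAlgebra.reₗ (R := k'[X]) (a := fpoly a' c') (b := 0)) g t
    have him : ∀ (t : Finset ι) (g : ι → BB k' a' c'), (∑ j ∈ t, g j).im = ∑ j ∈ t, (g j).im :=
      fun t g => map_sum (QuadraticAlgebra.imₗ (R := k'[X]) (a := fpoly a' c') (b := 0)) g t
    ext1
    · rw [hre]
      ext m
      rw [finsetSum_coeff]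
      refine ((Finset.sum_congr rfl fun j _ => ?_).trans (key _ (h1 m))).symm
      rw [kc_mul_re, coeff_C_mul]
      simp only [bmap, RingHom.coe_mk, MonoidHom.coe_mk, OneHom.coe_mk, Lam, coeff_map, coeff_pl]
    · rw [him]
      ext m
      rw [finsetSum_coeff]
      refine ((Finset.sum_congr rfl fun j _ => ?_).trans (key _ (h2 m))).symm
      rw [kc_mul_im, coeff_C_mul]
      simp only [bmap, RingHom.coe_mk, MonoidHom.coe_mk, OneHom.coe_mk, Lam, coeff_map, coeff_pl]

lemma mem_map_iff {ι : Type*} (b : Basis ι k k') (ha : algebraMap k k' a = a')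
    (hc : algebraMap k k' c = c') (I : Ideal (BB k a c)) (w : BB k' a' c') :
    w ∈ I.map (bmap (algebraMap k k') ha hc) ↔ ∀ j, (Lam (b.coord j) w : BB k a c) ∈ I := by
  constructor
  · intro hw j
    have key : ∀ r : BB k' a' c', (Lam (b.coord j) (r * w) : BB k a c) ∈ I := by
      induction hw using Submodule.span_induction with
      | mem x hx =>
        obtain ⟨i, hi, rfl⟩ := hx
        intro r
        rw [mul_comm, Lam_bmap_mul]
        exact I.mul_mem_right _ hi
      | zero => intro r; rw [mul_zero, Lam_zero]; exact I.zero_mem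
      | add x y _ _ hx hy =>
        intro r; rw [mul_add, Lam_add]; exact I.add_mem (hx r) (hy r)
      | smul t x _ hx =>
        intro r
        rw [smul_eq_mul, ← mul_assoc]
        exact hx _
    simpa using key 1
  · intro h
    obtain ⟨s, -, hs⟩ := recon b ha hc w
    rw [hs]
    exact Ideal.sum_mem _ fun j _ => Ideal.mul_mem_left _ _ (Ideal.mem_map_of_mem _ (h j))

lemma Lam_sum {ι : Type*} (l : k' →ₗ[k] k) (s : Finset ι) (g : ι → BB k' a' c') :
    (Lam l (∑ j ∈ s, g j) : BB k a c) = ∑ j ∈ s, Lam l (g j) := by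
  classical
  induction s using Finset.induction_on with
  | empty => simp [Lam_zero]
  | insert j s hj ih => rw [Finset.sum_insert hj, Finset.sum_insert hj, Lam_add, ih]

/-- Basis of the quotient. -/
lemma finrank_map (ha : algebraMap k k' a = a') (hc : algebraMap k k' c = c')
    (I : Ideal (BB k a c)) :
    finrank k' (BB k' a' c' ⧸ I.map (bmap (algebraMap k k') ha hc)) = finrank k (BB k a c ⧸ I) := by
  classical
  let b := Basis.ofVectorSpace k k'
  let e := Basis.ofVectorSpace k (BB k a c ⧸ I)
  have hsec : ∀ i, ∃ x : BB k a c, Ideal.Quotient.mk I x = e i := fun i =>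
    Ideal.Quotient.mk_surjective _
  choose x hx using hsec
  let I' := I.map (bmap (algebraMap k k') ha hc)
  let v : (Basis.ofVectorSpaceIndex k (BB k a c ⧸ I)) → (BB k' a' c' ⧸ I') := fun i =>
    Ideal.Quotient.mk I' (bmap (algebraMap k k') ha hc (x i))
  have hli : LinearIndependent k' v := by
    rw [linearIndependent_iff']
    intro s g hg i hi
    have h1 : ∑ j ∈ s, kc (g j) * bmap (algebraMap k k') ha hc (x j) ∈ I' := by
      rw [← Ideal.Quotient.eq_zero_iff_mem, map_sum, ← hg]
      refine Finset.sum_congr rfl fun j _ => ?_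
      rw [map_mul, Algebra.smul_def]
      rfl
    rw [mem_map_iff b] at h1
    have h2 : ∀ m, b.coord m (g i) = 0 := by
      intro m
      have h3 := h1 m
      rw [Lam_sum] at h3
      simp only [Lam_kc_mul] at h3
      rw [← Ideal.Quotient.eq_zero_iff_mem, map_sum] at h3
      have h4 : ∑ j ∈ s, (b.coord m (g j)) • e j = 0 := by
        rw [← h3]
        refine Finset.sum_congr rfl fun j _ => ?_
        rw [map_mul, hx, Algebra.smul_def]
        rfl
      exact linearIndependent_iff'.1 e.linearIndependent s _ h4 i hi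
    exact b.ext_elem fun m => by simpa using h2 m
  have hsp : ⊤ ≤ Submodule.span k' (Set.range v) := by
    intro w _
    obtain ⟨w, rfl⟩ := Ideal.Quotient.mk_surjective w
    obtain ⟨s, -, hs⟩ := recon b ha hc w
    rw [hs, map_sum]
    refine Submodule.sum_mem _ fun j _ => ?_
    rw [map_mul]
    have h5 : (Ideal.Quotient.mk I') (kc (b j)) *
        (Ideal.Quotient.mk I') (bmap (algebraMap k k') ha hc (Lam (b.coord j) w)) =
        (b j) • (Ideal.Quotient.mk I') (bmap (algebraMap k k') ha hc (Lam (b.coord j) w)) := by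
      rw [Algebra.smul_def]; rfl
    rw [h5]
    refine Submodule.smul_mem _ _ ?_
    generalize (Lam (b.coord j) w : BB k a c) = y
    -- y = sum of e plus element of I
    have h6 : Ideal.Quotient.mk I y - ∑ i ∈ (e.repr (Ideal.Quotient.mk I y)).support,
        (e.repr (Ideal.Quotient.mk I y) i) • e i = 0 := by
      rw [sub_eq_zero]
      exact (e.linearCombination_repr _).symm
    have h7 : y - ∑ i ∈ (e.repr (Ideal.Quotient.mk I y)).support,
        algebraMap k (BB k a c) (e.repr (Ideal.Quotient.mk I y) i) * x i ∈ I := by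
      rw [← Ideal.Quotient.eq_zero_iff_mem, map_sub, map_sum, ← h6]
      congr 1
      refine Finset.sum_congr rfl fun i _ => ?_
      rw [map_mul, hx, Algebra.smul_def]
      rfl
    have h8 := Ideal.mem_map_of_mem (bmap (algebraMap k k') ha hc) h7
    have h9 : Ideal.Quotient.mk I' (bmap (algebraMap k k') ha hc y) =
        ∑ i ∈ (e.repr (Ideal.Quotient.mk I y)).support,
          (algebraMap k k' (e.repr (Ideal.Quotient.mk I y) i)) • v i := by
      rw [← sub_eq_zero, ← Ideal.Quotient.eq_zero_iff_mem.2 h8, map_sub, map_sub, map_sum, map_sum]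
      congr 1
      refine Finset.sum_congr rfl fun i _ => ?_
      rw [map_mul, map_mul, Algebra.smul_def]
      congr 1
      have : bmap (algebraMap k k') ha hc (algebraMap k (BB k a c)
          (e.repr (Ideal.Quotient.mk I y) i)) = kc (algebraMap k k'
          (e.repr (Ideal.Quotient.mk I y) i)) := by
        ext1
        · show (C _ : k[X]).map _ = C _
          rw [map_C]
        · show (0 : k[X]).map _ = 0
          rw [Polynomial.map_zero]
      rw [this]
      rfl
    rw [h9]
    exact Submodule.sum_mem _ fun i _ => Submodule.smul_mem _ _ (Submodule.subset_span ⟨i, rfl⟩)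
  let B' := Basis.mk hli hsp
  rw [finrank_eq_nat_card_basis B', finrank_eq_nat_card_basis e]

end

end Pool.Agent.Helper55.W4
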