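import Pool.Agent.Helper55.W4.BC

/-!
# EL3: extension of the base field
-/

set_option autoImplicit false

namespace Pool.Agent.Helper55.W4

open Polynomial Module Pool.Agent.Helper40.W4

lemma bmap_injective {k k' : Type} [Field k] [Field k'] (φ : k →+* k') {a c : k} {a' c' : k'}
    (ha : φ a = a') (hc : φ c = c') : Function.Injective (bmap φ ha hc) := by
  intro x y h
  have h1 := congrArg QuadraticAlgebra.re h
  have h2 := congrArg QuadraticAlgebra.im h
  ext1
  · exact Polynomial.map_injective φ φ.injective h1
  · exact Polynomial.map_injective φ φ.injective h2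

/-- An ideal containing an ideal of the same finite codimension. -/
lemma eq_of_finrank {k R : Type} [Field k] [CommRing R] [Algebra k R] (J I : Ideal R) (h : J ≤ I)
    [FiniteDimensional k (R ⧸ J)] (hf : finrank k (R ⧸ J) = finrank k (R ⧸ I)) : I = J := by
  let f : (R ⧸ J) →ₗ[k] (R ⧸ I) := (Ideal.Quotient.factorₐ k h).toLinearMap
  have hs : Function.Surjective f := Ideal.Quotient.factor_surjective h
  have : FiniteDimensional k (R ⧸ I) := Module.Finite.of_surjective f hs
  have hi : Function.Injective f := (LinearMap.injective_iff_surjective_of_finrank_eq_finrank hf).2 hs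
  refine le_antisymm (fun x hx => ?_) h
  rw [← Ideal.Quotient.eq_zero_iff_mem]
  apply hi
  rw [map_zero]
  exact Ideal.Quotient.eq_zero_iff_mem.2 hx

/-- EL3. -/
theorem el3_thm (hD : S_DEGB) : S_EL3 := by
  intro k k' _ _ _ _ a c ha I hI
  refine ⟨finrank_map rfl rfl I, ?_⟩
  rintro ⟨w', hw'⟩
  have : CharZero k' := charZero_of_injective_algebraMap (algebraMap k k').injective
  have ha0 : ¬ IsSquare a := fun h => ha (h.map (algebraMap k k'))
  obtain ⟨hdom, hN, hdeg⟩ := hD k a c ha0
  obtain ⟨hdom', hN', hdeg'⟩ := hD k' (algebraMap k k' a) (algebraMap k k' c) ha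
  let b := Basis.ofVectorSpace k k'
  -- `w' ≠ 0`
  obtain ⟨x0, hx0, hx0'⟩ := Submodule.exists_mem_ne_zero_of_ne_bot hI
  have hw0 : w' ≠ 0 := by
    rintro rfl
    have h1 := Ideal.mem_map_of_mem (bmap (algebraMap k k') (a := a) (c := c) rfl rfl) hx0
    rw [hw', Ideal.span_singleton_eq_bot.2 rfl, Ideal.mem_bot] at h1
    exact hx0' (bmap_injective _ _ _ (h1.trans (map_zero _).symm))
  obtain ⟨hn0, ⟨n, hn⟩, hfin, -⟩ := hN' w' hw0
  rw [← two_mul] at hn
  have hI1 : finrank k (BB k a c ⧸ I) = 2 * n := by
    rw [← finrank_map (k := k) (k' := k') rfl rfl I, hw', hfin, hn]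
  -- the coordinates
  have hmem : ∀ j, (Lam (b.coord j) w' : BB k a c) ∈ I := by
    rw [← mem_map_iff b rfl rfl, hw']
    exact Ideal.mem_span_singleton_self _
  have hb : ∀ m, ((∀ j, ((Lam (b.coord j) w' : BB k a c).re).coeff m = 0) → w'.re.coeff m = 0) ∧
      ((∀ j, ((Lam (b.coord j) w' : BB k a c).im).coeff m = 0) → w'.im.coeff m = 0) := by
    intro m
    constructor
    · intro h
      refine b.ext_elem fun j => ?_
      have := h j
      rw [Lam, coeff_pl] at this
      simpa using this
    · intro h
      refine b.ext_elem fun j => ?_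
      have := h j
      rw [Lam, coeff_pl] at this
      simpa using this
  obtain ⟨hr, hi⟩ := (hdeg' w' n hw0).1 hn.le
  have hle : ∀ j, (Lam (b.coord j) w' : BB k a c) ≠ 0 →
      (QuadraticAlgebra.norm (Lam (b.coord j) w' : BB k a c)).natDegree ≤ 2 * n := by
    intro j hj
    rw [hdeg _ n hj]
    constructor
    · refine natDegree_le_iff_coeff_eq_zero.2 fun m hm => ?_
      rw [Lam, coeff_pl, coeff_eq_zero_of_natDegree_lt (lt_of_le_of_lt hr hm), map_zero]
    · rcases hi with hi | hi
      · left
        rw [Lam, hi, pl_zero]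
      · by_cases h0 : (Lam (b.coord j) w' : BB k a c).im = 0
        · exact Or.inl h0
        · right
          have h1 : (Lam (b.coord j) w' : BB k a c).im.natDegree ≤ w'.im.natDegree := by
            refine natDegree_le_iff_coeff_eq_zero.2 fun m hm => ?_
            rw [Lam, coeff_pl, coeff_eq_zero_of_natDegree_lt hm, map_zero]
          omega
  have hex : ∃ j, (Lam (b.coord j) w' : BB k a c) ≠ 0 ∧
      (QuadraticAlgebra.norm (Lam (b.coord j) w' : BB k a c)).natDegree = 2 * n := by
    by_contra hcon
    push Not at hcon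
    rcases Nat.eq_zero_or_pos n with h0 | hpos
    · subst h0
      have h1 : ∀ j, (Lam (b.coord j) w' : BB k a c) = 0 := by
        intro j
        by_contra h
        exact hcon j h (Nat.le_zero.1 (hle j h))
      apply hw0
      ext m
      · exact (hb m).1 fun j => by rw [h1 j]; simp
      · exact (hb m).2 fun j => by rw [h1 j]; simp
    · have h2 : ∀ j, (Lam (b.coord j) w' : BB k a c) = 0 ∨
          ((Lam (b.coord j) w' : BB k a c).re.natDegree ≤ n - 1 ∧
            ((Lam (b.coord j) w' : BB k a c).im = 0 ∨
              (Lam (b.coord j) w' : BB k a c).im.natDegree + 3 ≤ n - 1)) := by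
        intro j
        by_cases h : (Lam (b.coord j) w' : BB k a c) = 0
        · exact Or.inl h
        · right
          have h3 := hle j h
          have h4 := hcon j h
          obtain ⟨-, ⟨t, ht⟩, -, -⟩ := hN _ h
          exact (hdeg _ (n - 1) h).1 (by omega)
      have h5 : (QuadraticAlgebra.norm w').natDegree ≤ 2 * (n - 1) := by
        rw [hdeg' w' (n - 1) hw0]
        constructor
        · refine natDegree_le_iff_coeff_eq_zero.2 fun m hm => (hb m).1 fun j => ?_
          rcases h2 j with h | ⟨h, -⟩
          · rw [h]; simp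
          · exact coeff_eq_zero_of_natDegree_lt (lt_of_le_of_lt h hm)
        · by_cases h0 : w'.im = 0
          · exact Or.inl h0
          · right
            by_contra h6
            have h7 : w'.im.coeff w'.im.natDegree = 0 := by
              refine (hb _).2 fun j => ?_
              rcases h2 j with h | ⟨-, h | h⟩
              · rw [h]; simp
              · rw [h]; simp
              · exact coeff_eq_zero_of_natDegree_lt (by omega)
            exact h0 (leadingCoeff_eq_zero.1 h7)
      omega
  obtain ⟨j, hj0, hj⟩ := hex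
  refine ⟨Lam (b.coord j) w', ?_⟩
  obtain ⟨-, -, hf, hfd⟩ := hN _ hj0
  have := hfd
  refine eq_of_finrank (k := k) _ _ ?_ ?_
  · rw [Ideal.span_singleton_le_iff_mem]
    exact hmem j
  · rw [hf, hj, hI1]

end Pool.Agent.Helper55.W4
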