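import Pool.Agent.Helper40.W4.Spec

/-!
# Relative norms and codimension
-/

set_option autoImplicit false

namespace Pool.Agent.Helper55.W4

open Polynomial Module Pool.Agent.Helper40.W4

section

variable {k R S : Type} [Field k] [CommRing R] [CommRing S] [IsDedekindDomain R]
  [IsDedekindDomain S] [Algebra k R] [Algebra k S] [Algebra R S] [IsScalarTower k R S]
  [Module.Finite R S] [IsTorsionFree R S] [PerfectField (FractionRing R)]

lemma finrank_top {k R : Type} [Field k] [CommRing R] [Algebra k R] :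
    finrank k (R ⧸ (⊤ : Ideal R)) = 0 := by
  have : Subsingleton (R ⧸ (⊤ : Ideal R)) := Ideal.Quotient.subsingleton_iff.2 rfl
  exact finrank_zero_of_subsingleton

lemma finrank_pow {k R : Type} [Field k] [CommRing R] [IsDedekindDomain R] [Algebra k R]
    (hA : S_ADD) (hR : ∀ I : Ideal R, I ≠ ⊥ → FiniteDimensional k (R ⧸ I)) (P : Ideal R)
    (hP : P ≠ ⊥) (n : ℕ) : finrank k (R ⧸ (P ^ n)) = n * finrank k (R ⧸ P) := by
  induction n with
  | zero => rw [pow_zero, zero_mul, Ideal.one_eq_top, finrank_top]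
  | succ n ih => rw [pow_succ, hA k R hR _ _ (pow_ne_zero n hP) hP, ih]; ring

lemma finrank_relNorm (hA : S_ADD) (hR : ∀ I : Ideal R, I ≠ ⊥ → FiniteDimensional k (R ⧸ I))
    (hS : ∀ I : Ideal S, I ≠ ⊥ → FiniteDimensional k (S ⧸ I)) (J : Ideal S) (hJ : J ≠ ⊥) :
    finrank k (R ⧸ Ideal.relNorm R J) = finrank k (S ⧸ J) := by
  classical
  suffices h : J ≠ ⊥ ∧ finrank k (R ⧸ Ideal.relNorm R J) = finrank k (S ⧸ J) from h.2
  rw [← Ideal.prod_normalizedFactors_eq_self hJ]
  refine Multiset.prod_induction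
    (fun I : Ideal S => I ≠ ⊥ ∧ finrank k (R ⧸ Ideal.relNorm R I) = finrank k (S ⧸ I)) _ ?_ ?_ ?_
  · rintro I₁ I₂ ⟨h1, h2⟩ ⟨h3, h4⟩
    refine ⟨mul_ne_zero h1 h3, ?_⟩
    rw [map_mul, hA k R hR _ _ (by rwa [Ne, Ideal.relNorm_eq_bot_iff])
      (by rwa [Ne, Ideal.relNorm_eq_bot_iff]), hA k S hS _ _ h1 h3, h2, h4]
  · refine ⟨one_ne_zero, ?_⟩
    rw [map_one, Ideal.one_eq_top, Ideal.one_eq_top, finrank_top, finrank_top]
  · intro Q hQ
    have hQ' : Q ≠ ⊥ := UniqueFactorizationMonoid.ne_zero_of_mem_normalizedFactors hQ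
    refine ⟨hQ', ?_⟩
    rw [Ideal.mem_normalizedFactors_iff hJ] at hQ
    have hmax : Q.IsMaximal := Ring.DimensionLEOne.maximalOfPrime hQ' hQ.1
    let P := Q.under R
    have hPmax : P.IsMaximal := Ideal.isMaximal_comap_of_isIntegral_of_isMaximal Q
    have hP0 : P ≠ ⊥ := by
      intro h
      apply hQ'
      exact Ideal.eq_bot_of_comap_eq_bot (R := R) h
    rw [Ideal.relNorm_eq_pow_of_isMaximal Q P, finrank_pow hA hR P hP0,
      Ideal.inertiaDeg_eq_of_isMaximal P Q, mul_comm]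
    let := Ideal.Quotient.field P
    have := hR P hP0
    have := hS Q hQ'
    have : IsScalarTower k (R ⧸ P) (S ⧸ Q) := IsScalarTower.of_algebraMap_eq' (by
      ext x
      rw [IsScalarTower.algebraMap_apply k S (S ⧸ Q), IsScalarTower.algebraMap_apply k R S]
      rfl)
    exact finrank_mul_finrank k (R ⧸ P) (S ⧸ Q)

end

end Pool.Agent.Helper55.W4
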