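import Pool.Agent.Helper55.W4.EL3
import Pool.Agent.Helper55.W4.Odd1

/-!
# ODD: the odd step
-/

set_option autoImplicit false

namespace Pool.Agent.Helper55.W4

open Polynomial Module Pool.Agent.Helper40.W4

lemma not_isSquare_of_odd {k k' : Type} [Field k] [Field k'] [Algebra k k']
    [FiniteDimensional k k'] (hodd : Odd (finrank k k')) (a : k) (ha : ¬ IsSquare a) :
    ¬ IsSquare (algebraMap k k' a) := by
  rintro ⟨t, ht⟩
  have hirr : Irreducible (X ^ 2 - C a : k[X]) := 
    X_pow_sub_C_irreducible_of_prime Nat.prime_two fun b hb => ha ⟨b, by rw [← hb, pow_two]⟩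
  have hmin : X ^ 2 - C a = minpoly k t :=
    minpoly.eq_of_irreducible_of_monic hirr (by simp [ht, pow_two])
      (monic_X_pow_sub_C a two_ne_zero)
  have h2 : finrank k (IntermediateField.adjoin k {t}) = 2 := by
    rw [IntermediateField.adjoin.finrank (IsIntegral.of_finite k t), ← hmin, natDegree_X_pow_sub_C]
  have h3 := finrank_mul_finrank k (IntermediateField.adjoin k {t}) k'
  rw [h2] at h3
  rw [← h3] at hodd
  exact (Nat.not_odd_iff_even.2 (even_two_mul _)) hodd

lemma squarefree_map {k k' : Type} [Field k] [Field k'] [CharZero k] (φ : k →+* k') (a c : k)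
    (h : Squarefree (fpoly a c)) : Squarefree (fpoly (φ a) (φ c)) := by
  rw [← fpoly_map]
  exact ((PerfectField.separable_iff_squarefree.2 h).map).squarefree

section

variable {k k' : Type} [Field k] [Field k'] [Algebra k k'] {a c : k} {a' c' : k'}

/-- `B'` is free over `B`. -/
lemma exists_basis {ι : Type*} [Fintype ι] [DecidableEq ι] (b : Basis ι k k')
    (ha : algebraMap k k' a = a') (hc : algebraMap k k' c = c') :
    letI := (bmap (algebraMap k k') ha hc).toAlgebra
    Nonempty (Basis ι (BB k a c) (BB k' a' c')) := by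
  let := (bmap (algebraMap k k') ha hc).toAlgebra
  have hli : LinearIndependent (BB k a c) (fun i => (kc (b i) : BB k' a' c')) := by
    rw [Fintype.linearIndependent_iff]
    intro g hg j
    have h1 : (Lam (b.coord j) (∑ i, g i • (kc (b i) : BB k' a' c')) : BB k a c) = 0 := by
      rw [hg, Lam_zero]
    rw [Lam_sum] at h1
    have h2 : ∀ i, (Lam (b.coord j) (g i • (kc (b i) : BB k' a' c')) : BB k a c) =
        if i = j then g i else 0 := by
      intro i
      have : g i • (kc (b i) : BB k' a' c') = kc (b i) * bmap (algebraMap k k') ha hc (g i) := by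
        rw [Algebra.smul_def, mul_comm]
        rfl
      rw [this, Lam_kc_mul, Basis.coord_apply, Basis.repr_self, Finsupp.single_apply]
      split_ifs with h
      · rw [map_one, one_mul]
      · rw [map_zero, zero_mul]
    simp only [h2] at h1
    simpa using h1
  have hsp : ⊤ ≤ Submodule.span (BB k a c) (Set.range (fun i => (kc (b i) : BB k' a' c'))) := by
    intro w _
    obtain ⟨s, -, hs⟩ := recon b ha hc w
    rw [hs]
    refine Submodule.sum_mem _ fun j _ => ?_
    rw [mul_comm]
    exact Submodule.smul_mem _ (Lam (b.coord j) w) (Submodule.subset_span ⟨j, rfl⟩)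
  exact ⟨Basis.mk hli hsp⟩

end

/-- `bmap` of an automorphism as a ring equivalence. -/
noncomputable def bequiv {k : Type} [Field k] (σ : k ≃+* k) {a c : k} (ha : σ a = a)
    (hc : σ c = c) : BB k a c ≃+* BB k a c :=
  RingEquiv.ofBijective (bmap (σ : k →+* k) ha hc) ⟨bmap_injective _ _ _, by
    intro y
    refine ⟨⟨y.re.map (σ.symm : k →+* k), y.im.map (σ.symm : k →+* k)⟩, ?_⟩
    ext1
    · show (y.re.map (σ.symm : k →+* k)).map (σ : k →+* k) = y.re
      rw [Polynomial.map_map]
      simp
    · show (y.im.map (σ.symm : k →+* k)).map (σ : k →+* k) = y.im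
      rw [Polynomial.map_map]
      simp⟩

lemma relNorm_map {R S : Type} [CommRing R] [CommRing S] [IsDedekindDomain R] [IsDedekindDomain S]
    [Algebra R S] [Module.Finite R S] [IsTorsionFree R S] [Module.Free R S] (e : R ≃+* R)
    (e' : S ≃+* S) (h : ∀ x, e' (algebraMap R S x) = algebraMap R S (e x)) (I : Ideal S) :
    Ideal.relNorm R (I.map (e' : S →+* S)) = (Ideal.relNorm R I).map (e : R →+* R) := by
  have hN : ∀ x : S, Algebra.intNorm R S (e' x) = e (Algebra.intNorm R S x) := by
    intro x
    rw [Algebra.intNorm_eq_norm, Algebra.norm_eq_of_equiv_equiv e e' (by ext x; simp [h]) x,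
      RingEquiv.apply_symm_apply]
  rw [Ideal.relNorm_apply, Ideal.relNorm_apply, Ideal.map_span]
  congr 1
  ext y
  constructor
  · rintro ⟨x, hx, rfl⟩
    obtain ⟨z, hz, rfl⟩ := (Ideal.mem_map_iff_of_surjective _ e'.surjective).1 hx
    exact ⟨_, ⟨z, hz, rfl⟩, (hN z).symm⟩
  · rintro ⟨_, ⟨z, hz, rfl⟩, rfl⟩
    exact ⟨e' z, Ideal.mem_map_of_mem _ hz, hN z⟩

/-- ODD. -/
theorem odd_thm (hB : S_DEGB) (hDD : S_DED) (hA : S_ADD) : S_ODD := by
  intro k k' _ _ _ _ a s σ σ' hσ hG hfin hodd
  have : CharZero k' := charZero_of_injective_algebraMap (algebraMap k k').injective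
  have hnsq' := not_isSquare_of_odd hodd a hG.nsq
  have hsqf' : Squarefree (fpoly (algebraMap k k' a) ((algebraMap k k' s) ^ 2)) := by
    have := squarefree_map (algebraMap k k') a (s ^ 2) hG.sqf
    rwa [map_pow] at this
  have fa' : σ' (algebraMap k k' a) = algebraMap k k' a := by rw [hσ, hG.fa]
  have fs' : σ' (algebraMap k k' s) = -algebraMap k k' s := by rw [hσ, hG.fs, map_neg]
  refine ⟨fa', fs', hnsq', fun h => hG.s0 ((map_eq_zero _).1 h), hsqf', ?_⟩
  intro I' hI' x y hx hy heq
  -- the rings
  let B := BB k a (s ^ 2)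
  let B' := BB k' (algebraMap k k' a) ((algebraMap k k' s) ^ 2)
  have hc : algebraMap k k' (s ^ 2) = (algebraMap k k' s) ^ 2 := map_pow _ _ _
  let alg : Algebra B B' := (bmap (algebraMap k k') rfl hc).toAlgebra
  have tow : IsScalarTower k B B' := IsScalarTower.of_algebraMap_eq (fun x => by
    ext1
    · show C (algebraMap k k' x) = Polynomial.map (algebraMap k k') (C x : k[X])
      rw [map_C]
    · show (0 : k'[X]) = Polynomial.map (algebraMap k k') (0 : k[X])
      rw [Polynomial.map_zero])
  have ded : IsDedekindDomain B := hDD k a (s ^ 2) hG.nsq hG.sqf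
  have ded' : IsDedekindDomain B' := hDD k' _ _ hnsq' hsqf'
  obtain ⟨b⟩ := exists_basis (a := a) (c := s ^ 2) (a' := algebraMap k k' a)
    (c' := (algebraMap k k' s) ^ 2) (finBasis k k') rfl hc
  have hfree : Module.Free B B' := Module.Free.of_basis b
  have hfinB : Module.Finite B B' := Module.Finite.of_basis b
  have htf : IsTorsionFree B B' := inferInstance
  have hcz : CharZero (FractionRing B) := inferInstance
  have hperf : PerfectField (FractionRing B) := inferInstance
  obtain ⟨-, hN, -⟩ := hB k a (s ^ 2) hG.nsq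
  obtain ⟨-, hN', -⟩ := hB k' _ ((algebraMap k k' s) ^ 2) hnsq'
  have hfd : ∀ I : Ideal B, I ≠ ⊥ → FiniteDimensional k (B ⧸ I) := by
    intro I hI
    obtain ⟨w, hw, hw0⟩ := Submodule.exists_mem_ne_zero_of_ne_bot hI
    obtain ⟨-, -, -, h⟩ := hN w hw0
    have hle : Ideal.span {w} ≤ I := (Ideal.span_singleton_le_iff_mem _).2 hw
    exact Module.Finite.of_surjective (Ideal.Quotient.factorₐ k hle).toLinearMap
      (Ideal.Quotient.factor_surjective hle)
  have hfd' : ∀ I : Ideal B', I ≠ ⊥ → FiniteDimensional k' (B' ⧸ I) := by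
    intro I hI
    obtain ⟨w, hw, hw0⟩ := Submodule.exists_mem_ne_zero_of_ne_bot hI
    obtain ⟨-, -, -, h⟩ := hN' w hw0
    have hle : Ideal.span {w} ≤ I := (Ideal.span_singleton_le_iff_mem _).2 hw
    exact Module.Finite.of_surjective (Ideal.Quotient.factorₐ k' hle).toLinearMap
      (Ideal.Quotient.factor_surjective hle)
  have hfd'' : ∀ I : Ideal B', I ≠ ⊥ → FiniteDimensional k (B' ⧸ I) := by
    intro I hI
    have := hfd' I hI
    exact Module.Finite.trans k' _
  have hI0 : I' ≠ ⊥ := by
    rintro rfl
    have hd : Module.Finite k' (B' ⧸ (⊥ : Ideal B')) := by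
      by_contra h
      rw [finrank_of_not_finite h] at hI'
      exact (by decide : ¬ Odd 0) hI'
    have hinj : Function.Injective (((Ideal.Quotient.mkₐ k' (⊥ : Ideal B')).toLinearMap).comp
        ((Algebra.linearMap k'[X] B').restrictScalars k')) := by
      intro p q hpq
      have h1 : Ideal.Quotient.mk (⊥ : Ideal B') (algebraMap k'[X] B' p) =
        Ideal.Quotient.mk (⊥ : Ideal B') (algebraMap k'[X] B' q) := hpq
      rw [Ideal.Quotient.eq, Ideal.mem_bot, sub_eq_zero] at h1
      exact QuadraticAlgebra.algebraMap_injective h1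
    have : Module.Finite k' k'[X] := Module.Finite.of_injective _ hinj
    exact Polynomial.not_finite this
  have h1 := finrank_relNorm hA hfd hfd'' I' hI0
  have hfr : Module.Free k' (B' ⧸ I') := Module.Free.of_divisionRing _ _
  have h2 : finrank k (B' ⧸ I') = finrank k k' * finrank k' (B' ⧸ I') :=
    (finrank_mul_finrank k k' _).symm
  have hne : ∀ z : B', z ≠ 0 → Algebra.intNorm B B' z ≠ 0 := by
    intro z hz h0
    have h4 := Ideal.relNorm_singleton B z
    rw [h0, Ideal.span_singleton_eq_bot.2 rfl, Ideal.relNorm_eq_bot_iff,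
      Ideal.span_singleton_eq_bot] at h4
    exact hz h4
  refine hG.nq (Ideal.relNorm B I') ?_ (Algebra.intNorm B B' x) (Algebra.intNorm B B' y) ?_ ?_ ?_
  · rw [h1, h2]
    exact hodd.mul hI'
  · exact hne x hx
  · exact hne y hy
  · have h3 := congrArg (Ideal.relNorm B) heq
    rw [map_mul, map_mul, Ideal.relNorm_singleton, Ideal.relNorm_singleton] at h3
    rw [h3]
    congr 1
    exact relNorm_map (bequiv σ hG.fa (by simp [hG.fs])) (bequiv σ' fa' (by simp [fs'])) (by
      intro x
      ext1
      · show Polynomial.map (σ' : k' →+* k') (Polynomial.map (algebraMap k k') x.re) =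
          Polynomial.map (algebraMap k k') (Polynomial.map (σ : k →+* k) x.re)
        rw [Polynomial.map_map, Polynomial.map_map]
        congr 1
        ext z
        exact hσ z
      · show Polynomial.map (σ' : k' →+* k') (Polynomial.map (algebraMap k k') x.im) =
          Polynomial.map (algebraMap k k') (Polynomial.map (σ : k →+* k) x.im)
        rw [Polynomial.map_map, Polynomial.map_map]
        congr 1
        ext z
        exact hσ z) I'

end Pool.Agent.Helper55.W4
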